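import Mathlib

set_option autoImplicit false

/-!
# Polychromatic colourings of the hypercube
-/

namespace Pool.Agent.Q181.PC

/-- the hypercube `Q_n`: two vertices of `{0,1}^n` are adjacent iff they differ in exactly one coordinate -/
def cube (n : ℕ) : SimpleGraph (Fin n → Bool) where
  Adj x y := ∃! i, x i ≠ y i
  symm := by
    constructor
    intro x y h
    simpa only [ne_comm] using h
  loopless := by
    constructor
    rintro x ⟨i, h, _⟩
    exact h rfl

/-- `χ` is a `G`-polychromatic colouring of the edges of `Q_n` with `r` colours: every copy of `G` in `Q_n`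
(the image of an injective homomorphism from `G` to `Q_n`) contains an edge of every colour -/
def Polychromatic {V : Type} (G : SimpleGraph V) {n r : ℕ} (χ : (cube n).edgeSet → Fin r) : Prop :=
  ∀ (f : G.Copy (cube n)) (c : Fin r), ∃ e : G.edgeSet, χ (f.mapEdgeSet e) = c

/-- the polychromatic number `p(G)` is `r`: the largest `r ≥ 1` such that for every `n ≥ 1` there is a
`G`-polychromatic colouring of `Q_n` with `r` colours -/
def IsPolychromaticNumber {V : Type} (G : SimpleGraph V) (r : ℕ) : Prop :=
  IsGreatest {s : ℕ | 1 ≤ s ∧ ∀ n ≥ 1, ∃ χ : (cube n).edgeSet → Fin s, Polychromatic G χ} r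

/-- one may change the coordinate `j` of `w` -/
def Cond {d : ℕ} (j : Fin d) (w : Fin d → Bool) : Prop :=
  (∀ i, j < i → w i = false) ∨ (∀ i, i < j → w i = true)

/-- the subgraph of `Q_d` in which the coordinate `j` may be changed if all later coordinates are `0` or all
earlier coordinates are `1` -/
def gr (d : ℕ) : SimpleGraph (Fin d → Bool) where
  Adj w w' := ∃ j, w j ≠ w' j ∧ (∀ i, i ≠ j → w i = w' i) ∧ Cond j w
  symm := by
    constructor
    rintro w w' ⟨j, h1, h2, h3⟩
    refine ⟨j, h1.symm, fun i hi => (h2 i hi).symm, ?_⟩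
    rcases h3 with h3 | h3
    · left
      intro i hi
      rw [← h2 i (ne_of_gt hi)]
      exact h3 i hi
    · right
      intro i hi
      rw [← h2 i (ne_of_lt hi)]
      exact h3 i hi
  loopless := by
    constructor
    rintro w ⟨j, h, _⟩
    exact h rfl

end Pool.Agent.Q181.PC
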