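import Pool.Agent.Q181.PC.Defs

set_option autoImplicit false

/-!
# The lower bound: every copy of the graph `gr d` is a standard one
-/

namespace Pool.Agent.Q181.PC

open Finset Function

/-- change the coordinate `j` -/
def fl {d : ℕ} (j : Fin d) (w : Fin d → Bool) : Fin d → Bool := update w j (!w j)

section fl

variable {d : ℕ}

theorem fl_same (j : Fin d) (w : Fin d → Bool) : fl j w j = !w j := by simp [fl]

theorem fl_ne {i j : Fin d} (h : i ≠ j) (w : Fin d → Bool) : fl j w i = w i := by simp [fl, h]

theorem fl_fl (j : Fin d) (w : Fin d → Bool) : fl j (fl j w) = w := by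
  funext i
  by_cases h : i = j
  · subst h; simp [fl_same]
  · rw [fl_ne h, fl_ne h]

theorem fl_comm {i j : Fin d} (h : i ≠ j) (w : Fin d → Bool) : fl i (fl j w) = fl j (fl i w) := by
  funext k
  by_cases h1 : k = i
  · subst h1
    rw [fl_same, fl_ne h, fl_ne h, fl_same]
  · rw [fl_ne h1]
    by_cases h2 : k = j
    · subst h2
      rw [fl_same, fl_same, fl_ne h1]
    · rw [fl_ne h2, fl_ne h2, fl_ne h1]

theorem fl_inj {i j : Fin d} (w : Fin d → Bool) (h : fl i w = fl j w) : i = j := by
  by_contra hne
  have := congrFun h i
  rw [fl_same, fl_ne hne] at this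
  cases hw : w i <;> simp [hw] at this

theorem adj_iff (x y : Fin d → Bool) : (cube d).Adj x y ↔ ∃ m, y = fl m x := by
  constructor
  · rintro ⟨m, h1, h2⟩
    refine ⟨m, ?_⟩
    funext i
    by_cases h : i = m
    · subst h
      rw [fl_same]
      beta_reduce at h1
      cases hx : x i <;> cases hy : y i <;> simp [hx, hy] at h1 ⊢
    · rw [fl_ne h]
      by_contra hcon
      exact h (h2 i (fun h3 => hcon h3.symm))
  · rintro ⟨m, rfl⟩
    refine ⟨m, ?_, ?_⟩
    · beta_reduce
      rw [fl_same]
      cases x m <;> simp
    · intro i hi
      by_contra hcon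
      exact hi (fl_ne hcon x).symm

theorem square {x : Fin d → Bool} {a b c e : Fin d} (h : fl c (fl a x) = fl e (fl b x)) (hab : a ≠ b)
    (hx : fl c (fl a x) ≠ x) : e = a ∧ c = b := by
  have hca : c ≠ a := by
    rintro rfl
    exact hx (fl_fl _ _)
  have h1 : e = a := by
    by_contra hcon
    have := congrFun h a
    rw [fl_ne hca.symm, fl_same, fl_ne (Ne.symm hcon), fl_ne hab] at this
    cases hw : x a <;> simp [hw] at this
  subst h1
  refine ⟨rfl, ?_⟩
  by_contra hcon
  have := congrFun h b
  rw [fl_ne (Ne.symm hcon), fl_ne hab.symm, fl_ne hab.symm, fl_same] at this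
  cases hw : x b <;> simp [hw] at this

end fl

section rigid

variable {d n : ℕ} (F : (Fin d → Bool) → (Fin n → Bool)) (hinj : Injective F)
  (hF : ∀ j w, Cond j w → ∃ m, F (fl j w) = fl m (F w))

theorem cond_fl_self {j : Fin d} {w : Fin d → Bool} (h : Cond j w) : Cond j (fl j w) := by
  rcases h with h | h
  · left; intro i hi; rw [fl_ne (ne_of_gt hi)]; exact h i hi
  · right; intro i hi; rw [fl_ne (ne_of_lt hi)]; exact h i hi

include hinj hF in
theorem sq {i j : Fin d} (hij : i ≠ j) {w : Fin d → Bool} (h1 : Cond j w) (h2 : Cond j (fl i w))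
    (h3 : Cond i w) (h4 : Cond i (fl j w)) {a : Fin n} (ha : F (fl j w) = fl a (F w)) :
    F (fl j (fl i w)) = fl a (F (fl i w)) ∧ ∀ b, F (fl i w) = fl b (F w) → a ≠ b := by
  obtain ⟨b, hb⟩ := hF i w h3
  obtain ⟨c, hc⟩ := hF i (fl j w) h4
  obtain ⟨e, he⟩ := hF j (fl i w) h2
  have hab : ∀ b, F (fl i w) = fl b (F w) → a ≠ b := by
    rintro b hb rfl
    rw [← ha] at hb
    exact hij (fl_inj w (hinj hb))
  have h5 : fl c (fl a (F w)) = fl e (fl b (F w)) := by
    rw [← ha, ← hb, ← hc, ← he, fl_comm hij]
  have h6 : fl c (fl a (F w)) ≠ F w := by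
    rw [← ha, ← hc]
    intro hcon
    have := hinj hcon
    have := congrFun this i
    rw [fl_same, fl_ne hij] at this
    cases hw : w i <;> simp [hw] at this
  obtain ⟨h7, _⟩ := square h5 (hab b hb) h6
  refine ⟨?_, hab⟩
  rw [he, h7]

/-- the base vertex -/
def base (j : Fin d) : Fin d → Bool := fun i => decide (i < j)

theorem cond_base (j : Fin d) : Cond j (base j) := by
  left
  intro i hi
  unfold base
  rw [decide_eq_false_iff_not]
  exact not_lt.2 hi.le

include hinj hF in
theorem rigid (ψ : Fin d → Fin n) (hψ : ∀ j, F (fl j (base j)) = fl (ψ j) (F (base j))) (j : Fin d) :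
    ∀ w, Cond j w → F (fl j w) = fl (ψ j) (F w) := by
  -- both sides are the same for `w` and `fl j w`
  have hs : ∀ w, F (fl j w) = fl (ψ j) (F w) → F (fl j (fl j w)) = fl (ψ j) (F (fl j w)) := by
    intro w h
    rw [h, fl_fl, fl_fl]
  have h0 : ∀ w, (∀ i, i < j → w i = true) → (∀ i, j < i → w i = false) →
      F (fl j w) = fl (ψ j) (F w) := by
    intro w h1 h2
    have h3 : w = base j ∨ w = fl j (base j) := by
      cases hw : w j
      · left
        funext i
        unfold base
        rcases lt_trichotomy i j with h | h | h
        · rw [h1 i h]; simp [h]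
        · rw [h, hw]; simp
        · rw [h2 i h]; simp [h.le]
      · right
        funext i
        rcases lt_trichotomy i j with h | h | h
        · rw [h1 i h, fl_ne (ne_of_lt h)]; simp [base, h]
        · rw [h, hw, fl_same]; simp [base]
        · rw [h2 i h, fl_ne (ne_of_gt h)]; simp [base, h.le]
    rcases h3 with h3 | h3
    · rw [h3]; exact hψ j
    · rw [h3]; exact hs _ (hψ j)
  -- all later coordinates are zero
  have hA : ∀ (k : ℕ) (w : Fin d → Bool), (univ.filter fun i => i < j ∧ w i = false).card = k →
      (∀ i, j < i → w i = false) → F (fl j w) = fl (ψ j) (F w) := by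
    intro k
    induction k with
    | zero =>
      intro w hw h2
      refine h0 w ?_ h2
      intro i hi
      rw [card_eq_zero, filter_eq_empty_iff] at hw
      have := hw (mem_univ i)
      cases h : w i
      · exact absurd ⟨hi, h⟩ this
      · rfl
    | succ k ih =>
      intro w hw h2
      have hne : (univ.filter fun i => i < j ∧ w i = false).Nonempty := by
        rw [← card_pos, hw]; omega
      set i := (univ.filter fun i => i < j ∧ w i = false).min' hne with hi
      have hi1 : i ∈ univ.filter fun i => i < j ∧ w i = false := min'_mem _ hne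
      obtain ⟨_, hij, hwi⟩ := mem_filter.1 hi1
      have hlt : ∀ k, k < i → w k = true := by
        intro k hk
        cases h : w k
        · have hmem : k ∈ univ.filter fun i => i < j ∧ w i = false := by
            rw [mem_filter]
            exact ⟨mem_univ _, hk.trans hij, h⟩
          exact absurd hk (not_lt.2 (min'_le _ _ hmem))
        · rfl
      have hne' : i ≠ j := ne_of_lt hij
      have hw' : (univ.filter fun k => k < j ∧ fl i w k = false).card = k := by
        have : (univ.filter fun k => k < j ∧ fl i w k = false) =
            (univ.filter fun i => i < j ∧ w i = false).erase i := by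
          ext k
          simp only [mem_filter, mem_univ, true_and, mem_erase]
          by_cases hk : k = i
          · rw [hk, fl_same, hwi]; simp
          · rw [fl_ne hk]; simp [hk]
        rw [this, card_erase_of_mem hi1, hw]
        rfl
      have h2' : ∀ k, j < k → fl i w k = false := by
        intro k hk
        rw [fl_ne (ne_of_gt (hij.trans hk))]
        exact h2 k hk
      have h5 := ih (fl i w) hw' h2'
      have h6 := sq F hinj hF (w := fl i w) hne' (Or.inl h2')
        (Or.inl (by rw [fl_fl]; exact h2))
        (Or.inr (by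
          intro k hk
          rw [fl_ne (ne_of_lt hk)]
          exact hlt k hk))
        (Or.inr (by
          intro k hk
          rw [fl_ne (ne_of_lt (hk.trans hij)), fl_ne (ne_of_lt hk)]
          exact hlt k hk)) h5
      rw [fl_fl] at h6
      exact h6.1
  -- all earlier coordinates are one
  have hB : ∀ (k : ℕ) (w : Fin d → Bool), (univ.filter fun i => j < i ∧ w i = true).card = k →
      (∀ i, i < j → w i = true) → F (fl j w) = fl (ψ j) (F w) := by
    intro k
    induction k with
    | zero =>
      intro w hw h2
      refine h0 w h2 ?_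
      intro i hi
      rw [card_eq_zero, filter_eq_empty_iff] at hw
      have := hw (mem_univ i)
      cases h : w i
      · rfl
      · exact absurd ⟨hi, h⟩ this
    | succ k ih =>
      intro w hw h2
      have hne : (univ.filter fun i => j < i ∧ w i = true).Nonempty := by
        rw [← card_pos, hw]; omega
      set i := (univ.filter fun i => j < i ∧ w i = true).max' hne with hi
      have hi1 : i ∈ univ.filter fun i => j < i ∧ w i = true := max'_mem _ hne
      obtain ⟨_, hij, hwi⟩ := mem_filter.1 hi1
      have hlt : ∀ k, i < k → w k = false := by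
        intro k hk
        cases h : w k
        · rfl
        · have hmem : k ∈ univ.filter fun i => j < i ∧ w i = true := by
            rw [mem_filter]
            exact ⟨mem_univ _, hij.trans hk, h⟩
          exact absurd hk (not_lt.2 (le_max' _ _ hmem))
      have hne' : i ≠ j := ne_of_gt hij
      have hw' : (univ.filter fun k => j < k ∧ fl i w k = true).card = k := by
        have : (univ.filter fun k => j < k ∧ fl i w k = true) =
            (univ.filter fun i => j < i ∧ w i = true).erase i := by
          ext k
          simp only [mem_filter, mem_univ, true_and, mem_erase]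
          by_cases hk : k = i
          · rw [hk, fl_same, hwi]; simp
          · rw [fl_ne hk]; simp [hk]
        rw [this, card_erase_of_mem hi1, hw]
        rfl
      have h2' : ∀ k, k < j → fl i w k = true := by
        intro k hk
        rw [fl_ne (ne_of_lt (hk.trans hij))]
        exact h2 k hk
      have h5 := ih (fl i w) hw' h2'
      have h6 := sq F hinj hF (w := fl i w) hne' (Or.inr h2')
        (Or.inr (by rw [fl_fl]; exact h2))
        (Or.inl (by
          intro k hk
          rw [fl_ne (ne_of_gt hk)]
          exact hlt k hk))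
        (Or.inl (by
          intro k hk
          rw [fl_ne (ne_of_gt (hij.trans hk)), fl_ne (ne_of_gt hk)]
          exact hlt k hk)) h5
      rw [fl_fl] at h6
      exact h6.1
  intro w hw
  rcases hw with hw | hw
  · exact hA _ w rfl hw
  · exact hB _ w rfl hw

include hinj hF in
theorem standard : ∃ ψ : Fin d → Fin n, Injective ψ ∧ (∀ j w, Cond j w → F (fl j w) = fl (ψ j) (F w)) ∧
    ∃ u : Fin n → Bool, ∀ w, (∀ j, F w (ψ j) = xor (u (ψ j)) (w j)) ∧ ∀ m, (∀ j, ψ j ≠ m) → F w m = u m := by
  choose ψ hψ using fun j => hF j (base j) (cond_base j)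
  have hr := rigid F hinj hF ψ hψ
  have hlt : ∀ i j, i < j → ψ j ≠ ψ i := by
    intro i j hij
    have c1 : Cond j (base i) := by
      left
      intro k hk
      unfold base
      rw [decide_eq_false_iff_not]
      exact not_lt.2 (hij.trans hk).le
    have c2 : Cond j (fl i (base i)) := by
      left
      intro k hk
      rw [fl_ne (ne_of_gt (hij.trans hk))]
      unfold base
      rw [decide_eq_false_iff_not]
      exact not_lt.2 (hij.trans hk).le
    have c3 : Cond i (fl j (base i)) := by
      right
      intro k hk
      rw [fl_ne (ne_of_lt (hk.trans hij))]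
      simp [base, hk]
    exact (sq F hinj hF (ne_of_lt hij) c1 c2 (cond_base i) c3 (hr j _ c1)).2 _ (hr i _ (cond_base i))
  have hψi : Injective ψ := by
    intro i j h
    rcases lt_trichotomy i j with h1 | h1 | h1
    · exact absurd h.symm (hlt i j h1)
    · exact h1
    · exact absurd h (hlt j i h1)
  refine ⟨ψ, hψi, hr, F (fun _ => false), ?_⟩
  have key : ∀ (k : ℕ) (w : Fin d → Bool), (univ.filter fun i => w i = true).card = k →
      (∀ j, F w (ψ j) = xor (F (fun _ => false) (ψ j)) (w j)) ∧
        ∀ m, (∀ j, ψ j ≠ m) → F w m = F (fun _ => false) m := by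
    intro k
    induction k with
    | zero =>
      intro w hw
      have : w = fun _ => false := by
        funext i
        rw [card_eq_zero, filter_eq_empty_iff] at hw
        have := hw (mem_univ i)
        simpa using this
      rw [this]
      exact ⟨fun j => by simp, fun m _ => rfl⟩
    | succ k ih =>
      intro w hw
      have hne : (univ.filter fun i => w i = true).Nonempty := by
        rw [← card_pos, hw]; omega
      set i := (univ.filter fun i => w i = true).max' hne with hi
      have hi1 : i ∈ univ.filter fun i => w i = true := max'_mem _ hne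
      have hwi : w i = true := (mem_filter.1 hi1).2
      have hlt : ∀ k, i < k → w k = false := by
        intro k hk
        cases h : w k
        · rfl
        · have hmem : k ∈ univ.filter fun i => w i = true := by
            rw [mem_filter]
            exact ⟨mem_univ _, h⟩
          exact absurd hk (not_lt.2 (le_max' _ _ hmem))
      have hw' : (univ.filter fun k => fl i w k = true).card = k := by
        have : (univ.filter fun k => fl i w k = true) = (univ.filter fun i => w i = true).erase i := by
          ext k
          simp only [mem_filter, mem_univ, true_and, mem_erase]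
          by_cases hk : k = i
          · rw [hk, fl_same, hwi]; simp
          · rw [fl_ne hk]; simp [hk]
        rw [this, card_erase_of_mem hi1, hw]
        rfl
      obtain ⟨g1, g2⟩ := ih (fl i w) hw'
      have g3 := hr i w (Or.inl hlt)
      have g4 : F w = fl (ψ i) (F (fl i w)) := by rw [g3, fl_fl]
      constructor
      · intro j
        by_cases hj : j = i
        · rw [hj, g4, fl_same, g1 i, fl_same, hwi]
          cases F (fun _ => false) (ψ i) <;> rfl
        · have : ψ j ≠ ψ i := fun h => hj (hψi h)
          rw [g4, fl_ne this, g1 j, fl_ne hj]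
      · intro m hm
        rw [g4, fl_ne (hm i).symm, g2 m hm]
  exact fun w => key _ w rfl

end rigid

/-- the number of ones -/
def wt {n : ℕ} (x : Fin n → Bool) : ℕ := (univ.filter fun i => x i = true).card

/-- the colouring by levels -/
def lev (n d : ℕ) (hd : 1 ≤ d) (e : (cube n).edgeSet) : Fin d :=
  ⟨Sym2.lift ⟨fun x y => min (wt x) (wt y), fun _ _ => min_comm _ _⟩ e.1 % d, Nat.mod_lt _ hd⟩

theorem lower {d : ℕ} (hd : 1 ≤ d) (n : ℕ) : Polychromatic (gr d) (lev n d hd) := by
  classical
  intro f c
  have hF : ∀ j w, Cond j w → ∃ m, f (fl j w) = fl m (f w) := by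
    intro j w hc
    rw [← adj_iff]
    apply f.toHom.map_adj
    refine ⟨j, ?_, ?_, hc⟩
    · rw [fl_same]
      cases w j <;> simp
    · intro i hi
      rw [fl_ne hi]
  obtain ⟨ψ, hψ, hr, u, hu⟩ := standard (fun w => f w) f.injective hF
  beta_reduce at hr hu
  set M := (univ.filter fun m => (∀ j, ψ j ≠ m) ∧ u m = true).card with hM
  have hwt : ∀ w, wt (f w) = M + (univ.filter fun j => f w (ψ j) = true).card := by
    intro w
    unfold wt
    have : (univ.filter fun i => f w i = true) = (univ.filter fun m => (∀ j, ψ j ≠ m) ∧ u m = true) ∪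
        (univ.filter fun j => f w (ψ j) = true).image ψ := by
      ext i
      simp only [mem_filter, mem_univ, true_and, mem_union, mem_image]
      constructor
      · intro h
        by_cases hi : ∀ j, ψ j ≠ i
        · left
          exact ⟨hi, by rw [← (hu w).2 i hi]; exact h⟩
        · push Not at hi
          obtain ⟨j, rfl⟩ := hi
          right
          exact ⟨j, h, rfl⟩
      · rintro (⟨h1, h2⟩ | ⟨j, h1, rfl⟩)
        · rw [(hu w).2 i h1]; exact h2
        · exact h1
    rw [this, card_union_of_disjoint, card_image_of_injective _ hψ]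
    rw [disjoint_left]
    intro i h1 h2
    rw [mem_filter] at h1
    rw [mem_image] at h2
    obtain ⟨j, _, hj⟩ := h2
    exact h1.2.1 j hj
  let z : Fin d := ⟨0, hd⟩
  obtain ⟨t, ht, htc⟩ : ∃ t < d, (M + t) % d = c := by
    refine ⟨(c + (d - M % d)) % d, Nat.mod_lt _ hd, ?_⟩
    have h1 : M % d < d := Nat.mod_lt _ hd
    have h2 := Nat.div_add_mod M d
    rw [Nat.add_mod_mod]
    have h3 : M + (c + (d - M % d)) = c + d * (M / d + 1) := by
      rw [mul_add]
      omega
    rw [h3, Nat.add_mul_mod_self_left, Nat.mod_eq_of_lt c.2]
  let v : Fin d → Bool := fun j => decide (1 ≤ (j : ℕ) ∧ (j : ℕ) ≤ t)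
  let w : Fin d → Bool := fun j => xor (u (ψ j)) (v j)
  have hv : ∀ j, f w (ψ j) = v j := by
    intro j
    rw [(hu w).1 j]
    simp [w]
  have hc0 : Cond z w := by
    right
    intro i hi
    exact absurd hi (by simp [z, Fin.lt_def])
  have hf1 : f (fl z w) = fl (ψ z) (f w) := hr z w hc0
  have w1 : wt (f w) = M + t := by
    rw [hwt]
    congr 1
    have : (univ.filter fun j => f w (ψ j) = true).map Fin.valEmbedding = Finset.Icc 1 t := by
      ext k
      simp only [mem_map, mem_filter, mem_univ, true_and, Fin.valEmbedding_apply, mem_Icc, hv, v,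
        decide_eq_true_eq]
      constructor
      · rintro ⟨j, h1, rfl⟩
        exact h1
      · intro h1
        exact ⟨⟨k, by omega⟩, h1, rfl⟩
    rw [← card_map Fin.valEmbedding, this, Nat.card_Icc]
    omega
  have w2 : wt (f (fl z w)) = M + (t + 1) := by
    rw [hwt]
    congr 1
    have : (univ.filter fun j => f (fl z w) (ψ j) = true).map Fin.valEmbedding = Finset.Icc 0 t := by
      ext k
      simp only [mem_map, mem_filter, mem_univ, true_and, Fin.valEmbedding_apply, mem_Icc]
      constructor
      · rintro ⟨j, h1, rfl⟩
        by_cases hj : j = z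
        · rw [hj]; simp [z]
        · rw [hf1, fl_ne (fun h => hj (hψ h)), hv] at h1
          simp only [v, decide_eq_true_eq] at h1
          omega
      · intro h1
        refine ⟨⟨k, by omega⟩, ?_, rfl⟩
        by_cases hk : (⟨k, by omega⟩ : Fin d) = z
        · rw [hk, hf1, fl_same, hv]
          simp [v, z]
        · rw [hf1, fl_ne (fun h => hk (hψ h)), hv]
          simp only [v, decide_eq_true_eq]
          have : k ≠ 0 := fun h => hk (Fin.ext h)
          omega
    rw [← card_map Fin.valEmbedding, this, Nat.card_Icc]
    omega
  have hadj : (gr d).Adj w (fl z w) := by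
    refine ⟨z, ?_, ?_, hc0⟩
    · rw [fl_same]
      cases w z <;> simp
    · intro i hi
      rw [fl_ne hi]
  refine ⟨⟨s(w, fl z w), hadj⟩, ?_⟩
  apply Fin.ext
  show min (wt (f w)) (wt (f (fl z w))) % d = c
  rw [w1, w2, min_eq_left (by omega)]
  exact htc

end Pool.Agent.Q181.PC
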