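import Mathlib

set_option autoImplicit false

/-!
# Ramsey's theorem for all small subsets at once, and the choice of the positions
-/

namespace Pool.Agent.Q181.PC

open Filter

section ramsey

variable {C : Type} [Finite C]

theorem exists_lim (h : ℕ → C) : ∃ c, ∀ᶠ x in (hyperfilter ℕ : Filter ℕ), h x = c := by
  obtain ⟨c, hc⟩ := Ultrafilter.eq_pure_of_finite ((hyperfilter ℕ).map h)
  refine ⟨c, ?_⟩
  have : {c} ∈ ((hyperfilter ℕ).map h) := by
    rw [hc]
    exact rfl
  exact this

/-- the limit along an ultrafilter -/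
noncomputable def lm (h : ℕ → C) : C := Classical.choose (exists_lim h)

theorem lm_spec (h : ℕ → C) : ∀ᶠ x in (hyperfilter ℕ : Filter ℕ), h x = lm h :=
  Classical.choose_spec (exists_lim h)

/-- iterated limits of a family of functions of finite sets -/
noncomputable def Phi (col : Finset ℕ → ℕ → C) : ℕ → Finset ℕ → ℕ → C
  | 0, P, l => col P l
  | q + 1, P, l => lm (fun x => Phi col q (insert x P) l)

theorem ramsey (K : ℕ) (col : Finset ℕ → ℕ → C) (m : ℕ) :
    ∃ T : Finset ℕ, T.card = m ∧ ∀ S ⊆ T, ∀ q, S.card + q ≤ K → ∀ l < K,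
      Phi col q S l = Phi col (S.card + q) ∅ l := by
  induction m with
  | zero =>
    refine ⟨∅, rfl, ?_⟩
    intro S hS q hq l hl
    rw [Finset.subset_empty] at hS
    subst hS
    simp
  | succ m ih =>
    obtain ⟨T, hT, h⟩ := ih
    have h1 : ∀ᶠ x in (hyperfilter ℕ : Filter ℕ), ∀ S ∈ T.powerset, ∀ q ∈ Finset.range K,
        ∀ l ∈ Finset.range K, Phi col q (insert x S) l = Phi col (q + 1) S l := by
      rw [eventually_all_finset]
      intro S _
      rw [eventually_all_finset]
      intro q _
      rw [eventually_all_finset]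
      intro l _
      exact lm_spec (fun x => Phi col q (insert x S) l)
    have h2 : ∀ᶠ x in (hyperfilter ℕ : Filter ℕ), x ∉ T := by
      apply hyperfilter_le_cofinite
      rw [mem_cofinite]
      have : {x | x ∉ T}ᶜ = (T : Set ℕ) := by
        ext x
        simp
      rw [this]
      exact T.finite_toSet
    obtain ⟨x, hx1, hx2⟩ := (h1.and h2).exists
    refine ⟨insert x T, by rw [Finset.card_insert_of_notMem hx2, hT], ?_⟩
    intro S hS q hq l hl
    by_cases hx : x ∈ S
    · have hS' : S.erase x ⊆ T := by
        intro y hy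
        rw [Finset.mem_erase] at hy
        have := hS hy.2
        rw [Finset.mem_insert] at this
        exact this.resolve_left hy.1
      have hc : (S.erase x).card + 1 = S.card := Finset.card_erase_add_one hx
      have hi : insert x (S.erase x) = S := Finset.insert_erase hx
      have h3 := hx1 (S.erase x) (Finset.mem_powerset.2 hS') q (Finset.mem_range.2 (by omega)) l
        (Finset.mem_range.2 hl)
      rw [hi] at h3
      rw [h3, h _ hS' (q + 1) (by omega) l hl]
      congr 1
      omega
    · refine h S ?_ q hq l hl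
      intro y hy
      have := hS hy
      rw [Finset.mem_insert] at this
      rcases this with rfl | this
      · exact absurd hy hx
      · exact this

end ramsey

/-- in a block of positions some colour can be avoided in every direction -/
theorem one_block {d s : ℕ} (hs : d + 1 ≤ s) (gg : ℕ → ℕ → Fin s) (N X : ℕ) :
    ∃ c : Fin s, ∀ j : Fin d, ∃ x, X ≤ x ∧ x < X + (d ^ 2 + 1) ∧
      ∀ t < d, gg (N + t) (x + min t j) ≠ c := by
  by_contra hcon
  push Not at hcon
  choose J hJ using hcon
  choose! t ht1 ht2 using hJ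
  have key : (Finset.univ ×ˢ Finset.Ico X (X + (d ^ 2 + 1)) : Finset (Fin s × ℕ)).card ≤
      (Finset.range d ×ˢ Finset.Ico X (X + (d ^ 2 + 1) + d)).card := by
    refine Finset.card_le_card_of_injOn
      (fun p => (t p.1 p.2, p.2 + min (t p.1 p.2) (J p.1))) ?_ ?_
    · rintro ⟨c, x⟩ hp
      simp only [Finset.coe_product, Set.mem_prod, Finset.mem_coe, Finset.mem_Ico, Finset.coe_univ,
        Set.mem_univ, true_and, Finset.mem_range] at hp ⊢
      have h1 := ht1 c x hp.1 hp.2
      refine ⟨h1, by omega, ?_⟩
      have := min_le_left (t c x) (J c : ℕ)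
      omega
    · rintro ⟨c, x⟩ hp ⟨c', x'⟩ hp' heq
      simp only [Finset.coe_product, Set.mem_prod, Finset.mem_coe, Finset.mem_Ico, Finset.coe_univ,
        Set.mem_univ, true_and] at hp hp'
      simp only [Prod.mk.injEq] at heq
      have h1 := ht2 c x hp.1 hp.2
      have h2 := ht2 c' x' hp'.1 hp'.2
      have hc : c = c' := by
        rw [← h1, ← h2, heq.2, heq.1]
      subst hc
      have h3 := heq.2
      rw [heq.1] at h3
      have : x = x' := by omega
      rw [this]
  rw [Finset.card_product, Finset.card_product, Finset.card_univ, Fintype.card_fin, Nat.card_Ico,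
    Nat.card_Ico, Finset.card_range] at key
  have e1 : X + (d ^ 2 + 1) - X = d ^ 2 + 1 := by omega
  have e2 : X + (d ^ 2 + 1) + d - X = d ^ 2 + 1 + d := by omega
  rw [e1, e2] at key
  have : (d + 1) * (d ^ 2 + 1) ≤ s * (d ^ 2 + 1) := Nat.mul_le_mul_right _ hs
  nlinarith

theorem blocks {d s : ℕ} (hs : d + 1 ≤ s) (gg : ℕ → ℕ → Fin s) :
    ∃ (N : ℕ) (c : Fin s) (x : Fin d → ℕ), StrictMono x ∧ (∀ j, x j ≤ N) ∧
      ∀ j : Fin d, ∀ t < d, gg (N + t) (x j + min t j) ≠ c := by
  set L := d ^ 2 + 1 with hL
  set N := s * d * (L + d) with hN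
  have h1 := fun B : ℕ => one_block hs gg N (B * (L + d))
  choose cB hB using h1
  obtain ⟨c, _, hc⟩ := Finset.exists_le_card_fiber_of_mul_le_card_of_maps_to
    (s := Finset.range (s * d)) (t := (Finset.univ : Finset (Fin s))) (f := cB) (n := d)
    (fun a _ => Finset.mem_univ _) ⟨⟨0, by omega⟩, Finset.mem_univ _⟩
    (by rw [Finset.card_univ, Fintype.card_fin, Finset.card_range])
  set F := (Finset.range (s * d)).filter (fun B => cB B = c) with hF
  let e := F.orderEmbOfCardLe hc
  have he : ∀ j, e j ∈ F := fun j => Finset.orderEmbOfCardLe_mem F hc j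
  have he1 : ∀ j, cB (e j) = c := fun j => (Finset.mem_filter.1 (he j)).2
  have he2 : ∀ j, e j < s * d := fun j => Finset.mem_range.1 (Finset.mem_filter.1 (he j)).1
  choose x hx1 hx2 hx3 using fun j => hB (e j) j
  refine ⟨N, c, x, ?_, ?_, ?_⟩
  · intro i j hij
    have h2 : e i < e j := e.strictMono hij
    have h3 := hx2 i
    have h4 := hx1 j
    have h5 : (e i + 1) * (L + d) ≤ e j * (L + d) := Nat.mul_le_mul_right _ h2
    have h6 : (e i + 1) * (L + d) = e i * (L + d) + (L + d) := by ring
    omega
  · intro j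
    have h3 := hx2 j
    have h5 : (e j + 1) * (L + d) ≤ s * d * (L + d) := Nat.mul_le_mul_right _ (he2 j)
    have h6 : (e j + 1) * (L + d) = e j * (L + d) + (L + d) := by ring
    omega
  · intro j t ht
    have := hx3 j t ht
    rwa [he1] at this

end Pool.Agent.Q181.PC
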