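import Pool.Agent.Q181.PC.Defs
import Pool.Agent.Q181.PC.Ramsey

set_option autoImplicit false

/-!
# The upper bound
-/

namespace Pool.Agent.Q181.PC

open Filter Finset

/-- number of elements of `S` smaller than `a` -/
def rk (S : Finset ℕ) (a : ℕ) : ℕ := (S.filter (· < a)).card

theorem rk_inj {S : Finset ℕ} {a b : ℕ} (ha : a ∈ S) (hb : b ∈ S) (h : rk S a = rk S b) : a = b := by
  have key : ∀ a b, a ∈ S → b ∈ S → a < b → rk S a < rk S b := by
    intro a b ha hb hab
    apply Finset.card_lt_card
    rw [Finset.ssubset_iff_of_subset]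
    · refine ⟨a, ?_, ?_⟩
      · rw [Finset.mem_filter]; exact ⟨ha, hab⟩
      · rw [Finset.mem_filter]; rintro ⟨_, h⟩; exact lt_irrefl _ h
    · intro y hy
      rw [Finset.mem_filter] at hy ⊢
      exact ⟨hy.1, hy.2.trans hab⟩
  rcases lt_trichotomy a b with h1 | h1 | h1
  · exact absurd h (key a b ha hb h1).ne
  · exact h1
  · exact absurd h (key b a hb ha h1).ne'

/-- the vertex of `Q_n` given by a finite set of natural numbers -/
def vec (n : ℕ) (S : Finset ℕ) : Fin n → Bool := fun i => decide (i.val ∈ S)

section

variable {s : ℕ} (hs : 0 < s)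

open Classical in
/-- the colour of the edge of the subcube below `S` which changes the element of rank `l` -/
noncomputable def Fc (χ : ∀ n, Sym2 (Fin n → Bool) → Fin s) (n : ℕ) (S : Finset ℕ) (l : ℕ) : Fin s :=
  if h : ∃ a ∈ S, rk S a = l then χ n s(vec n (S.erase (Classical.choose h)), vec n S) else ⟨0, hs⟩

theorem Fc_eq (χ : ∀ n, Sym2 (Fin n → Bool) → Fin s) (n : ℕ) (S : Finset ℕ) (a : ℕ) (ha : a ∈ S) :
    Fc hs χ n S (rk S a) = χ n s(vec n (S.erase a), vec n S) := by
  have h : ∃ b ∈ S, rk S b = rk S a := ⟨a, ha, rfl⟩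
  unfold Fc
  rw [dif_pos h]
  obtain ⟨h1, h2⟩ := Classical.choose_spec h
  rw [rk_inj h1 ha h2]

end

section count

variable {d N : ℕ} (x : Fin d → ℕ) (hx : StrictMono x) (hN : ∀ j, x j ≤ N)

/-- the place of the `j`-th free coordinate -/
def pl (j : Fin d) : Fin (N + d) := ⟨x j + j, by have := hN j; have := j.2; omega⟩

include hx in
theorem pl_lt {i j : Fin d} (h : i < j) : pl x hN i < pl x hN j := by
  have := hx h
  rw [Fin.lt_def] at h ⊢
  show x i + i < x j + j
  omega

include hx in
theorem pl_inj : Function.Injective (pl x hN) := by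
  intro i j h
  rcases lt_trichotomy i j with h1 | h1 | h1
  · exact absurd h (pl_lt x hx hN h1).ne
  · exact h1
  · exact absurd h (pl_lt x hx hN h1).ne'

include hx in
theorem pl_lt_iff {i j : Fin d} : pl x hN i < pl x hN j ↔ i < j := by
  constructor
  · intro h
    by_contra hcon
    rcases (not_lt.1 hcon).lt_or_eq with h1 | h1
    · exact absurd (pl_lt x hx hN h1) (not_lt.2 h.le)
    · rw [h1] at h; exact lt_irrefl _ h
  · exact pl_lt x hx hN

/-- the places of the ones of the vertex `w` -/
def Pw (w : Fin d → Bool) : Finset (Fin (N + d)) :=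
  univ \ ((univ.filter fun i => w i = false).image (pl x hN))

include hx in
theorem mem_Pw (w : Fin d → Bool) (j : Fin d) : pl x hN j ∈ Pw x hN w ↔ w j = true := by
  unfold Pw
  rw [Finset.mem_sdiff, mem_image]
  constructor
  · rintro ⟨_, h⟩
    by_contra hcon
    exact h ⟨j, by simpa using hcon, rfl⟩
  · intro h
    refine ⟨mem_univ _, ?_⟩
    rintro ⟨i, hi, hij⟩
    rw [pl_inj x hx hN hij] at hi
    simp [h] at hi

include hx in
theorem card_Pw (w : Fin d → Bool) :
    (Pw x hN w).card = N + (univ.filter fun i => w i = true).card := by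
  unfold Pw
  rw [card_sdiff_of_subset (subset_univ _), card_image_of_injective _ (pl_inj x hx hN), card_univ,
    Fintype.card_fin]
  have h := Finset.card_filter_add_card_filter_not (s := (univ : Finset (Fin d))) (fun i => w i = true)
  rw [card_univ, Fintype.card_fin] at h
  have h2 : (univ.filter fun i => ¬ w i = true) = univ.filter fun i => w i = false := by
    ext i; simp
  rw [h2] at h
  omega

include hx in
theorem card_Pw_lt (w : Fin d → Bool) (j : Fin d) :
    ((Pw x hN w).filter (· < pl x hN j)).card = x j + (univ.filter fun i => i < j ∧ w i = true).card := by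
  have h1 : (Pw x hN w).filter (· < pl x hN j) =
      (univ.filter fun q : Fin (N + d) => q < pl x hN j) \
        ((univ.filter fun i => i < j ∧ w i = false).image (pl x hN)) := by
    ext q
    unfold Pw
    simp only [mem_filter, Finset.mem_sdiff, mem_univ, true_and, mem_image, not_exists, not_and]
    constructor
    · rintro ⟨h1, h2⟩
      refine ⟨h2, ?_⟩
      rintro i ⟨_, h3⟩
      exact h1 i h3
    · rintro ⟨h1, h2⟩
      refine ⟨?_, h1⟩
      intro i h3 h4
      refine h2 i ⟨?_, h3⟩ h4
      rw [← pl_lt_iff x hx hN, h4]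
      exact h1
  rw [h1, card_sdiff_of_subset, card_image_of_injective _ (pl_inj x hx hN)]
  · have h2 : (univ.filter fun q : Fin (N + d) => q < pl x hN j).card = x j + j := by
      have : (univ.filter fun q : Fin (N + d) => q < pl x hN j) = Iio (pl x hN j) := by
        ext q; simp
      rw [this, Fin.card_Iio]
      rfl
    have h3 : (univ.filter fun i : Fin d => i < j ∧ w i = true).card +
        (univ.filter fun i : Fin d => i < j ∧ w i = false).card = j := by
      have h := Finset.card_filter_add_card_filter_not (s := Iio j) (fun i => w i = true)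
      rw [Fin.card_Iio] at h
      rw [← h]
      congr 2
      · ext i; simp
      · ext i; simp
    omega
  · intro q hq
    rw [mem_image] at hq
    obtain ⟨i, hi, rfl⟩ := hq
    rw [mem_filter] at hi ⊢
    exact ⟨mem_univ _, pl_lt x hx hN hi.2.1⟩

end count

theorem cond_count {d : ℕ} (w : Fin d → Bool) (j : Fin d) (hj : w j = true) (hc : Cond j w) :
    ∃ t < d, (univ.filter fun i => w i = true).card = t + 1 ∧
      (univ.filter fun i => i < j ∧ w i = true).card = min t j := by
  set A := (univ.filter fun i => i < j ∧ w i = true).card with hA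
  set B := (univ.filter fun i => j < i ∧ w i = true).card with hB
  have h1 : (univ.filter fun i => w i = true).card = A + B + 1 := by
    have e : (univ.filter fun i => w i = true) =
        insert j ((univ.filter fun i => i < j ∧ w i = true) ∪ (univ.filter fun i => j < i ∧ w i = true)) := by
      ext i
      simp only [mem_filter, mem_univ, true_and, mem_insert, mem_union]
      constructor
      · intro h
        rcases lt_trichotomy i j with h2 | h2 | h2
        · exact Or.inr (Or.inl ⟨h2, h⟩)
        · exact Or.inl h2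
        · exact Or.inr (Or.inr ⟨h2, h⟩)
      · rintro (h | h | h)
        · rw [h]; exact hj
        · exact h.2
        · exact h.2
    rw [e, card_insert_of_notMem, card_union_of_disjoint]
    · rw [disjoint_left]
      intro i h2 h3
      rw [mem_filter] at h2 h3
      exact absurd h2.2.1 (not_lt.2 h3.2.1.le)
    · simp
  have h2 : A ≤ j := by
    calc A ≤ (Iio j).card := by
          apply card_le_card
          intro i hi
          rw [mem_filter] at hi
          rw [mem_Iio]
          exact hi.2.1
      _ = j := Fin.card_Iio j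
  have h3 : (univ.filter fun i => w i = true).card ≤ d := by
    calc _ ≤ (univ : Finset (Fin d)).card := card_le_card (filter_subset _ _)
      _ = d := by rw [card_univ, Fintype.card_fin]
  refine ⟨A + B, by omega, h1, ?_⟩
  rcases hc with hc | hc
  · have h4 : B = 0 := by
      rw [hB, card_eq_zero, filter_eq_empty_iff]
      rintro i _ ⟨h5, h6⟩
      rw [hc i h5] at h6
      exact absurd h6 (by decide)
    omega
  · have h4 : A = j := by
      rw [hA]
      have : (univ.filter fun i => i < j ∧ w i = true) = Iio j := by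
        ext i
        simp only [mem_filter, mem_univ, true_and, mem_Iio]
        exact ⟨fun h => h.1, fun h => ⟨h, hc i h⟩⟩
      rw [this, Fin.card_Iio]
    omega

theorem vec_adj {n : ℕ} {S : Finset ℕ} {a : ℕ} (ha : a ∈ S) (hn : a < n) :
    (cube n).Adj (vec n (S.erase a)) (vec n S) := by
  refine ⟨⟨a, hn⟩, ?_, ?_⟩
  · simp [vec, ha]
  · intro i hi
    by_contra hcon
    apply hi
    have : i.val ≠ a := fun h => hcon (Fin.ext h)
    simp [vec, this]

theorem upper {d s : ℕ} (hs : d + 1 ≤ s)
    (h : ∀ n ≥ 1, ∃ χ : (cube n).edgeSet → Fin s, Polychromatic (gr d) χ) : False := by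
  classical
  have hs0 : 0 < s := by omega
  have hne : Nonempty (Fin s) := ⟨⟨0, hs0⟩⟩
  choose χ₀ hχ using h
  let χ : ∀ n, Sym2 (Fin n → Bool) → Fin s := fun n e =>
    if hn : n ≥ 1 then (if h : e ∈ (cube n).edgeSet then χ₀ n hn ⟨e, h⟩ else ⟨0, hs0⟩) else ⟨0, hs0⟩
  let col : Finset ℕ → ℕ → Fin s := fun S l => lm (fun n => Fc hs0 χ n S l)
  obtain ⟨N, c, x, hx, hN, hgood⟩ := blocks hs (fun k l => Phi col (k + 1) ∅ l)
  obtain ⟨T, hT, hTr⟩ := ramsey (N + d) col (N + d)
  have e1 : ∀ᶠ n in (hyperfilter ℕ : Filter ℕ), ∀ S ∈ T.powerset, ∀ l ∈ range (N + d),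
      Fc hs0 χ n S l = col S l := by
    rw [eventually_all_finset]
    intro S _
    rw [eventually_all_finset]
    intro l _
    exact lm_spec (fun n => Fc hs0 χ n S l)
  have e2 : ∀ᶠ n in (hyperfilter ℕ : Filter ℕ), T.sup id + 1 ≤ n := by
    apply hyperfilter_le_cofinite
    rw [Nat.cofinite_eq_atTop]
    exact Filter.eventually_ge_atTop _
  obtain ⟨n, hn1, hn2⟩ := (e1.and e2).exists
  have hn0 : n ≥ 1 := by omega
  have hTn : ∀ a ∈ T, a < n := by
    intro a ha
    have : a ≤ T.sup id := Finset.le_sup (f := id) ha
    omega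
  let τ : Fin (N + d) ↪o ℕ := T.orderEmbOfFin hT
  have hτ : ∀ q, τ q ∈ T := fun q => Finset.orderEmbOfFin_mem T hT q
  let st : Fin d → ℕ := fun j => τ (pl x hN j)
  let S : (Fin d → Bool) → Finset ℕ := fun w => (Pw x hN w).map τ.toEmbedding
  have hST : ∀ w, S w ⊆ T := by
    intro w a ha
    rw [Finset.mem_map] at ha
    obtain ⟨q, _, rfl⟩ := ha
    exact hτ q
  have hst : ∀ w j, st j ∈ S w ↔ w j = true := by
    intro w j
    rw [← mem_Pw x hx hN w j]
    exact Finset.mem_map' τ.toEmbedding
  have hcard : ∀ w, (S w).card = N + (univ.filter fun i => w i = true).card := by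
    intro w
    rw [Finset.card_map, card_Pw x hx hN]
  have hrk : ∀ w j, rk (S w) (st j) = x j + (univ.filter fun i => i < j ∧ w i = true).card := by
    intro w j
    rw [← card_Pw_lt x hx hN w j]
    unfold rk
    have : (S w).filter (· < st j) = ((Pw x hN w).filter (· < pl x hN j)).map τ.toEmbedding := by
      ext a
      simp only [Finset.mem_filter, Finset.mem_map, S, RelEmbedding.coe_toEmbedding]
      constructor
      · rintro ⟨⟨q, hq, rfl⟩, h2⟩
        exact ⟨q, ⟨hq, τ.lt_iff_lt.1 h2⟩, rfl⟩
      · rintro ⟨q, ⟨hq, h2⟩, rfl⟩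
        exact ⟨⟨q, hq, rfl⟩, τ.lt_iff_lt.2 h2⟩
    rw [this, Finset.card_map]
  have her : ∀ w w' j, w j = false → w' j = true → (∀ i, i ≠ j → w i = w' i) →
      S w = (S w').erase (st j) := by
    intro w w' j h1 h2 h3
    ext a
    rw [Finset.mem_erase]
    simp only [Finset.mem_map, S, RelEmbedding.coe_toEmbedding, Pw, Finset.mem_sdiff, mem_univ, true_and,
      mem_image, mem_filter, not_exists, not_and]
    constructor
    · rintro ⟨q, hq, rfl⟩
      refine ⟨?_, q, ?_, rfl⟩
      · intro hcon
        exact hq j h1 (τ.injective hcon).symm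
      · intro i hi
        by_cases hij : i = j
        · rw [hij, h2] at hi; exact absurd hi (by decide)
        · exact hq i (by rw [h3 i hij]; exact hi)
    · rintro ⟨hne, q, hq, rfl⟩
      refine ⟨q, ?_, rfl⟩
      intro i hi
      by_cases hij : i = j
      · rw [hij]
        intro hcon
        exact hne (by rw [← hcon])
      · exact hq i (by rw [← h3 i hij]; exact hi)
  -- the copy
  have hadj : ∀ w w' j, w j = false → w' j = true → (∀ i, i ≠ j → w i = w' i) →
      (cube n).Adj (vec n (S w)) (vec n (S w')) := by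
    intro w w' j h1 h2 h3
    rw [her w w' j h1 h2 h3]
    exact vec_adj ((hst w' j).2 h2) (hTn _ (hτ _))
  have hhom : ∀ {w w'}, (gr d).Adj w w' → (cube n).Adj (vec n (S w)) (vec n (S w')) := by
    rintro w w' ⟨j, h1, h2, _⟩
    cases hw : w j
    · have hw' : w' j = true := by
        rw [hw] at h1
        cases h4 : w' j
        · exact absurd h4.symm h1
        · rfl
      exact hadj w w' j hw hw' h2
    · have hw' : w' j = false := by
        rw [hw] at h1
        cases h4 : w' j
        · rfl
        · exact absurd h4.symm h1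
      exact (hadj w' w j hw' hw (fun i hi => (h2 i hi).symm)).symm
  have hinj : Function.Injective (fun w => vec n (S w)) := by
    intro w w' hww
    funext j
    have h1 := congrFun hww ⟨st j, hTn _ (hτ _)⟩
    simp only [vec] at h1
    rw [decide_eq_decide, hst, hst] at h1
    cases h2 : w j <;> cases h3 : w' j <;> simp_all
  let f : (gr d).Copy (cube n) := ⟨⟨fun w => vec n (S w), hhom⟩, hinj⟩
  obtain ⟨⟨e, he⟩, hec⟩ := hχ n hn0 f c
  have key : ∀ w w' j (hww : (gr d).Adj w w'), w j = false → w' j = true → (∀ i, i ≠ j → w i = w' i) →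
      Cond j w → χ₀ n hn0 (f.mapEdgeSet ⟨s(w, w'), hww⟩) ≠ c := by
    intro w w' j hww h1 h2 h3 h4
    have h5 : Cond j w' := by
      rcases h4 with h4 | h4
      · left
        intro i hi
        rw [← h3 i (ne_of_gt hi)]
        exact h4 i hi
      · right
        intro i hi
        rw [← h3 i (ne_of_lt hi)]
        exact h4 i hi
    obtain ⟨t, ht, hc1, hc2⟩ := cond_count w' j h2 h5
    have g1 := hgood j t ht
    have a1 : χ₀ n hn0 (f.mapEdgeSet ⟨s(w, w'), hww⟩) = χ n s(vec n (S w), vec n (S w')) := by
      have hE : s(vec n (S w), vec n (S w')) ∈ (cube n).edgeSet := hhom hww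
      have : χ n s(vec n (S w), vec n (S w')) = χ₀ n hn0 ⟨s(vec n (S w), vec n (S w')), hE⟩ := by
        simp only [χ]
        rw [dif_pos hn0, dif_pos hE]
      rw [this]
      rfl
    have a2 : χ n s(vec n (S w), vec n (S w')) = Fc hs0 χ n (S w') (rk (S w') (st j)) := by
      rw [Fc_eq hs0 χ n (S w') (st j) ((hst w' j).2 h2), ← her w w' j h1 h2 h3]
    have hlt : rk (S w') (st j) < N + d := by
      rw [hrk, hc2]
      have := hN j
      have := min_le_left t (j : ℕ)
      omega
    rw [a1, a2, hn1 (S w') (mem_powerset.2 (hST w')) _ (mem_range.2 hlt)]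
    have a3 := hTr (S w') (hST w') 0 (by
      rw [hcard, hc1]
      omega) _ hlt
    have a4 : Phi col 0 (S w') (rk (S w') (st j)) = col (S w') (rk (S w') (st j)) := rfl
    rw [← a4, a3, hcard, hc1, hrk, hc2]
    have a5 : N + (t + 1) + 0 = N + t + 1 := by ring
    rw [a5]
    exact g1
  induction e using Sym2.ind with
  | _ w w' =>
    have hww : (gr d).Adj w w' := he
    obtain ⟨j, h1, h2, h3⟩ := id hww
    cases hw : w j
    · have hw' : w' j = true := by
        rw [hw] at h1
        cases h4 : w' j
        · exact absurd h4.symm h1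
        · rfl
      exact key w w' j hww hw hw' h2 h3 hec
    · have hw' : w' j = false := by
        rw [hw] at h1
        cases h4 : w' j
        · rfl
        · exact absurd h4.symm h1
      have h3' : Cond j w' := by
        rcases h3 with h3 | h3
        · left
          intro i hi
          rw [← h2 i (ne_of_gt hi)]
          exact h3 i hi
        · right
          intro i hi
          rw [← h2 i (ne_of_lt hi)]
          exact h3 i hi
      refine key w' w j hww.symm hw' hw (fun i hi => (h2 i hi).symm) h3' ?_
      rw [← hec]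
      congr 2
      exact Subtype.ext Sym2.eq_swap

end Pool.Agent.Q181.PC
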